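import Mathlib

/-!
# MP_32880b_ag, Q1 (affirmative answer)

The Monster (Semple) tower `P^k(n)` is covered by its standard affine charts, one for every
sequence of pivots `I 0, …, I (k-1) ∈ {1,…,n}`.  Level `j` has `n` *active coordinates*
`y j = (y j 1, …, y j n)`; the forms `d (y j i)` restrict to a basis of the dual of `Δ_j`.  Choosing
a line in `Δ_j` with `d (y j (I j)) ≠ 0` on it gives the active coordinates of level `j+1`: the
pivot coordinate `y (j+1) (I j) = y j (I j)` and, for `i ≠ I j`, the fibre coordinates
`y (j+1) i = d (y j i) / d (y j (I j))`.  The vertical hyperplane of level `j+1` is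
`d (y (j+1) (I j)) = 0`.
-/

namespace Pool.Agent.Results.MP_32880b_ag.MultWellDefined

open PowerSeries

variable {n : ℕ}

/-- The order at `t = 0` of `f - f(0)` (it is `⊤` when `f` is constant). -/
noncomputable def ord₀ (f : PowerSeries ℂ) : ℕ∞ := (f - C (constantCoeff f)).order

/-- The multiplicity of a curve germ `γ` in `ℂⁿ`: the least order at `t = 0` of its coordinate
functions, in coordinates centred at `γ(0)`. -/
noncomputable def mult (γ : Fin n → PowerSeries ℂ) : ℕ∞ := ⨅ i, ord₀ (γ i)

/-- `y 0, …, y k` are the active coordinates of the prolongations `γ^0 = γ, γ^1, …, γ^k` of the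
curve `γ` in the chart with pivots `I 0, …, I (k-1)`.  (That `y (j+1) i` is a power series says
that the limit at `t = 0` of the tangent lines of `γ^j` lies in the domain of the chart.) -/
structure IsLift (k : ℕ) (I : ℕ → Fin n) (γ : Fin n → PowerSeries ℂ)
    (y : ℕ → Fin n → PowerSeries ℂ) : Prop where
  zero : y 0 = γ
  ne : ∀ j < k, derivative ℂ (y j (I j)) ≠ 0
  pivot : ∀ j < k, y (j + 1) (I j) = y j (I j)
  quot : ∀ j < k, ∀ i, i ≠ I j →
    y (j + 1) i * derivative ℂ (y j (I j)) = derivative ℂ (y j i)

/-- At the point `p ∈ P^k(n)` of the chart `I` with coordinates `z 0, …, z k`, the hyperplane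
`d (y k i) = 0` of `Δ_k(p)` is critical: for some level `s + 1 ≤ k` it is the hyperplane
`δ_{s+1}^{k-s-1}(p)` obtained by prolonging the fibre `F_{s+1}` (on which `y (s+1) i` is constant,
where `i = I s`), the point `p` lying in the prolongation `P^{k-s-1}(F_{s+1})`. -/
def IsCritical (k : ℕ) (I : ℕ → Fin n) (z : ℕ → Fin n → ℂ) (i : Fin n) : Prop :=
  ∃ s < k, I s = i ∧ ∀ r, s < r → r < k → I r ≠ i ∧ z (r + 1) i = 0

/-- An integral curve of `Δ_k` through `p` with active coordinates `w` is regular at `t = 0`:
it is immersed and its tangent line lies in no critical hyperplane at `p`. -/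
structure Regular (k : ℕ) (I : ℕ → Fin n) (z : ℕ → Fin n → ℂ)
    (w : Fin n → PowerSeries ℂ) : Prop where
  immersed : ∃ i, coeff 1 (w i) ≠ 0
  avoids : ∀ i, IsCritical k I z i → coeff 1 (w i) ≠ 0

/-- `Germ(p)` for the point `p ∈ P^k(n)` with coordinates `z 0, …, z k` in the chart `I`: the
curves `γ` with `γ^k(0) = p` and `γ^k` regular at `0`. -/
def Germ (k : ℕ) (I : ℕ → Fin n) (z : ℕ → Fin n → ℂ) : Set (Fin n → PowerSeries ℂ) :=
  {γ | ∃ y : ℕ → Fin n → PowerSeries ℂ, IsLift k I γ y ∧
    (∀ j ≤ k, ∀ i, constantCoeff (y j i) = z j i) ∧ Regular k I z (y k)}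

/-! ### Proof -/

theorem one_le_ord₀ (f : PowerSeries ℂ) : 1 ≤ ord₀ f := by
  unfold ord₀
  rw [ENat.one_le_iff_ne_zero]
  intro h
  have h2 : (f - C (constantCoeff f)) ≠ 0 := by
    intro h3; rw [h3] at h; simp at h
  have h4 := PowerSeries.coeff_order h2
  rw [h] at h4
  simp at h4

theorem ord₀_eq_one (f : PowerSeries ℂ) (h : coeff 1 f ≠ 0) : ord₀ f = 1 := by
  apply le_antisymm _ (one_le_ord₀ f)
  unfold ord₀
  have := PowerSeries.order_le (φ := f - C (constantCoeff f)) 1
    (by simpa [PowerSeries.coeff_C] using h)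
  simpa using this

theorem ord₀_eq_order (f : PowerSeries ℂ) (h : constantCoeff f = 0) : ord₀ f = f.order := by
  unfold ord₀
  rw [h]; simp

/-- order of the derivative -/
theorem ord₀_eq_derivative (f : PowerSeries ℂ) : ord₀ f = (derivative ℂ f).order + 1 := by
  apply le_antisymm
  · -- if the derivative vanishes below order, so does `f - f(0)`
    by_cases hd : derivative ℂ f = 0
    · rw [hd]; simp
    · unfold ord₀
      have h1 := PowerSeries.coeff_order hd
      have hfin : (derivative ℂ f).order ≠ ⊤ := by
        rw [Ne, PowerSeries.order_eq_top]; exact hd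
      obtain ⟨m, hm⟩ := ENat.ne_top_iff_exists.1 hfin
      rw [← hm] at h1 ⊢
      have h2 : coeff (m + 1) (f - C (constantCoeff f)) ≠ 0 := by
        intro h3
        apply h1
        simp only [ENat.toNat_coe]
        rw [PowerSeries.coeff_derivative]
        have : coeff (m + 1) f = 0 := by
          simpa [PowerSeries.coeff_C] using h3
        rw [this]; simp
      have := PowerSeries.order_le (m + 1) h2
      exact_mod_cast this
  · unfold ord₀
    by_cases h0 : f - C (constantCoeff f) = 0
    · rw [h0]; simp
    · have h1 := PowerSeries.coeff_order h0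
      have hfin : (f - C (constantCoeff f)).order ≠ ⊤ := by
        rw [Ne, PowerSeries.order_eq_top]; exact h0
      obtain ⟨m, hm⟩ := ENat.ne_top_iff_exists.1 hfin
      rw [← hm] at h1 ⊢
      rcases m with _ | m
      · exfalso
        simp at h1
      · have h2 : coeff m (derivative ℂ f) ≠ 0 := by
          intro h3
          apply h1
          simp only [ENat.toNat_coe]
          rw [PowerSeries.coeff_derivative] at h3
          have h4 : coeff (m + 1) f = 0 := by
            rcases mul_eq_zero.1 h3 with h | h
            · exact h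
            · exfalso
              have : ((m : ℂ) + 1) ≠ 0 := by exact_mod_cast Nat.succ_ne_zero m
              exact this h
          simpa [PowerSeries.coeff_C] using h4
        have := PowerSeries.order_le m h2
        have h5 : (derivative ℂ f).order + 1 ≤ (m : ℕ∞) + 1 := by gcongr
        exact_mod_cast h5

/-- orders of a quotient of differentials -/
theorem ord₀_quot {f p g : PowerSeries ℂ} (h : g * derivative ℂ p = derivative ℂ f) :
    ord₀ f = g.order + ord₀ p := by
  rw [ord₀_eq_derivative, ord₀_eq_derivative, ← h, PowerSeries.order_mul, add_assoc]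

theorem order_eq_zero_of {g : PowerSeries ℂ} (h : constantCoeff g ≠ 0) : g.order = 0 := by
  have := PowerSeries.order_le (φ := g) 0 (by simpa using h)
  simpa using this

/-- the multiplicity of level `j` is the order of the pivot coordinate -/
theorem mult_level {k : ℕ} {I : ℕ → Fin n} {γ : Fin n → PowerSeries ℂ}
    {y : ℕ → Fin n → PowerSeries ℂ} (hy : IsLift k I γ y) {j : ℕ} (hj : j < k) :
    mult (y j) = ord₀ (y j (I j)) := by
  unfold mult
  apply le_antisymm
  · exact iInf_le _ _
  · apply le_iInf
    intro i
    by_cases hi : i = I j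
    · rw [hi]
    · rw [ord₀_quot (hy.quot j hj i hi)]
      exact le_add_self

theorem key {k : ℕ} {I : ℕ → Fin n} {z : ℕ → Fin n → ℂ} {γ γ' : Fin n → PowerSeries ℂ}
    {y y' : ℕ → Fin n → PowerSeries ℂ} (hy : IsLift k I γ y) (hy' : IsLift k I γ' y')
    (hz : ∀ j ≤ k, ∀ i, constantCoeff (y j i) = z j i)
    (hz' : ∀ j ≤ k, ∀ i, constantCoeff (y' j i) = z j i)
    (hr : Regular k I z (y k)) (hr' : Regular k I z (y' k)) :
    ∀ d j, j + d = k → mult (y j) = mult (y' j) ∧
      ∀ i, IsCritical j I z i → ord₀ (y j i) = ord₀ (y' j i) := by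
  intro d
  induction d with
  | zero =>
    intro j hj
    have hjk : j = k := by omega
    subst hjk
    have aux : ∀ w : Fin n → PowerSeries ℂ, Regular j I z w → mult w = 1 := by
      intro w hw
      obtain ⟨i, hi⟩ := hw.immersed
      unfold mult
      apply le_antisymm
      · exact (iInf_le _ i).trans (ord₀_eq_one _ hi).le
      · exact le_iInf fun i => one_le_ord₀ _
    refine ⟨by rw [aux _ hr, aux _ hr'], ?_⟩
    intro i hi
    rw [ord₀_eq_one _ (hr.avoids i hi), ord₀_eq_one _ (hr'.avoids i hi)]
  | succ d ih =>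
    intro j hj
    obtain ⟨hm, ha⟩ := ih (j + 1) (by omega)
    have hjk : j < k := by omega
    -- the pivot is critical at level `j+1`
    have hp : IsCritical (j + 1) I z (I j) :=
      ⟨j, by omega, rfl, fun r h1 h2 => by omega⟩
    have hpiv : ord₀ (y j (I j)) = ord₀ (y' j (I j)) := by
      have := ha (I j) hp
      rwa [hy.pivot j hjk, hy'.pivot j hjk] at this
    refine ⟨by rw [mult_level hy hjk, mult_level hy' hjk, hpiv], ?_⟩
    rintro i ⟨s, hs, hsi, hpers⟩
    by_cases hi : i = I j
    · rw [hi]; exact hpiv
    · rw [ord₀_quot (hy.quot j hjk i hi), ord₀_quot (hy'.quot j hjk i hi), hpiv]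
      congr 1
      by_cases h0 : z (j + 1) i = 0
      · have hc : IsCritical (j + 1) I z i := by
          refine ⟨s, by omega, hsi, ?_⟩
          intro r h1 h2
          by_cases hrj : r = j
          · subst hrj
            exact ⟨fun h => hi h.symm, h0⟩
          · exact hpers r h1 (by omega)
        have h1 := ha i hc
        rwa [ord₀_eq_order _ (by rw [hz (j + 1) (by omega) i, h0]),
          ord₀_eq_order _ (by rw [hz' (j + 1) (by omega) i, h0])] at h1
      · rw [order_eq_zero_of (by rw [hz (j + 1) (by omega) i]; exact h0),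
          order_eq_zero_of (by rw [hz' (j + 1) (by omega) i]; exact h0)]

/-- **Q1 of MP_32880b_ag, answered affirmatively.** For every point `p` of the Monster tower, all
curves in `Germ(p)` have the same multiplicity. -/
theorem result (n : ℕ) (k : ℕ) (I : ℕ → Fin n) (z : ℕ → Fin n → ℂ)
    (γ γ' : Fin n → PowerSeries ℂ) (hγ : γ ∈ Germ k I z) (hγ' : γ' ∈ Germ k I z) :
    mult γ = mult γ' := by
  obtain ⟨y, hy, hz, hr⟩ := hγ
  obtain ⟨y', hy', hz', hr'⟩ := hγ'
  have := (key hy hy' hz hz' hr hr' k 0 (by omega)).1
  rwa [hy.zero, hy'.zero] at this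

end Pool.Agent.Results.MP_32880b_ag.MultWellDefined
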